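import Pool.Agent.R50.SR.Main
import Pool.Agent.H367R3.GSBasic

set_option autoImplicit false

/-!
# Fractional colourings with `O(Δ ^ (1 - ε))` colours of graphs without an induced forest

For every forest `F` and every `k` there are `ε > 0` and `c > 0` with the following properties. Let `G` be
a finite graph without induced `F` and without a clique on `k` vertices.

1. There is a random independent set of `G` which contains every vertex `v` with probability at least
   `c / (1 + d(v)) ^ (1 - ε)`. So `G` has fractional chromatic number at most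
   `(1 + Δ) ^ (1 - ε) / c`.
2. For all vertex weights there is an independent set of weight at least `c ∑ w(v) / (1 + d(v)) ^ (1 - ε)`;
   for `w = 1` this is a polynomial improvement of the Caro–Wei bound `∑ 1 / (1 + d(v))`.
3. (Sparse Rödl theorem.) For every `δ` in `(0, 1]` there is a set `U` of at least `c δ ^ (1 / ε) n`
   vertices which spans at most `δ (|U| / n)² |E(G)|` edges.

The Gyárfás–Sumner conjecture says that the fractional chromatic number, and the chromatic number, are
bounded. For every `F` which is not a forest only a logarithmic improvement of the bounds `Δ` and Caro–Wei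
is possible (random graphs).

Proof.  Let `e(U)` be the number of edges inside `U`, let `σ` be in `(0, 1]` and let `U` be a set which
minimises `e(U) / |U| ^ (2 + τ)` among the sets with at least `σ n` vertices.  If `U` has more than `5 σ n`
vertices and spans edges, then deleting one vertex shows that all degrees in `G[U]` are at most `3/2` times
the average degree.  So the large cut theorem (`LargeCuts`, same folder) applies to `G[U]` and gives a
division of `U` into `S` and `U \ S` with `e(S) + e(U \ S) ≤ (1/2 - 3c/4) e(U)`, contrary to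
`e(S) ≥ e(U) (|S| / |U|) ^ (2 + τ)` and the same for `U \ S`, if `τ` is small in terms of `c`.  So
`U` spans no edges, or `|U| ≤ 5 σ n` and `e(U) ≤ (|U| / n) ^ (2 + τ) e(G)`.  This is the third part, and a
suitable `σ` gives independent sets with `n / (10 Δ ^ (1 / (1 + τ)))` vertices in all induced subgraphs.
Weights are divided into classes such that weights of the same class are equal up to a factor two or
differ by a factor more than `4 Δ`; degrees are divided into dyadic classes; the first part follows from the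
second part by the minimax theorem.
-/

namespace Pool.Agent.Results.MP_763321_co.FractionalColouring

open Pool.Agent.R50.SR Pool.Agent.Y394.AT Finset

theorem interedges_card {V : Type} [DecidableEq V] (G : SimpleGraph V) [DecidableRel G.Adj]
    (U : Finset V) : ((G.interedges U U).card : ℝ) = ee G U := by
  classical
  unfold ee dd
  rw [← Finset.sum_product']
  have h : G.interedges U U = (U ×ˢ U).filter (fun x => G.Adj x.1 x.2) := by
    ext ⟨a, b⟩
    rw [SimpleGraph.mem_interedges_iff, Finset.mem_filter, Finset.mem_product]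
    tauto
  rw [h, Finset.card_filter]
  push_cast
  apply Finset.sum_congr rfl
  intro x _
  split_ifs <;> rfl

/-- `G.interedges U U` is the set of ordered pairs of adjacent members of `U`; so its number of elements
is twice the number of edges inside `U`. -/
theorem result (m : ℕ) (F : SimpleGraph (Fin m)) (hF : F.IsAcyclic) (k : ℕ) :
    ∃ ε c : ℝ, 0 < ε ∧ ε < 1 ∧ 0 < c ∧ ∀ (V : Type) [Fintype V] [DecidableEq V]
      (G : SimpleGraph V) [DecidableRel G.Adj], ¬ F.IsIndContained G → G.CliqueFree k →
      -- a random independent set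
      (∃ p : Finset V → ℝ, (∀ I, 0 ≤ p I) ∧ ∑ I, p I = 1 ∧
        (∀ I, p I ≠ 0 → G.IsIndepSet (I : Set V)) ∧
        ∀ v, c / (1 + (G.degree v : ℝ)) ^ (1 - ε) ≤ ∑ I ∈ univ.filter (fun I => v ∈ I), p I) ∧
      -- weights
      (∀ w : V → ℝ, (∀ v, 0 ≤ w v) → ∃ I : Finset V, G.IsIndepSet (I : Set V) ∧
        c * ∑ v, w v / (1 + (G.degree v : ℝ)) ^ (1 - ε) ≤ ∑ v ∈ I, w v) ∧
      -- sets of small relative density
      (∀ δ : ℝ, 0 < δ → δ ≤ 1 → ∃ U : Finset V,
        c * δ ^ (1 / ε) * Fintype.card V ≤ U.card ∧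
        ((G.interedges U U).card : ℝ) ≤
          δ * ((U.card : ℝ) / Fintype.card V) ^ 2 * (G.interedges univ univ).card) := by
  classical
  obtain ⟨T, hT, ⟨ι0⟩⟩ := Pool.Agent.H367R3.forest_in_tree F hF
  obtain ⟨ε₁, c₁, hε₁, hε₁', hc₁, h₁⟩ := random_indep m k T hT
  obtain ⟨ε₂, c₂, hε₂, hε₂', hc₂, h₂⟩ := weighted m k T hT
  obtain ⟨τ, hτ, hτ1, h₃⟩ := sparse_set m k T hT
  obtain ⟨ε, hε⟩ : ∃ ε : ℝ, ε = min (min ε₁ ε₂) τ := ⟨_, rfl⟩
  obtain ⟨c, hc⟩ : ∃ c : ℝ, c = min (min c₁ c₂) (1 / 5) := ⟨_, rfl⟩
  have hε0 : 0 < ε := by rw [hε]; exact lt_min (lt_min hε₁ hε₂) hτ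
  have hεa : ε ≤ ε₁ := by rw [hε]; exact (min_le_left _ _).trans (min_le_left _ _)
  have hεb : ε ≤ ε₂ := by rw [hε]; exact (min_le_left _ _).trans (min_le_right _ _)
  have hεc : ε ≤ τ := by rw [hε]; exact min_le_right _ _
  have hc0 : 0 < c := by rw [hc]; exact lt_min (lt_min hc₁ hc₂) (by norm_num)
  have hca : c ≤ c₁ := by rw [hc]; exact (min_le_left _ _).trans (min_le_left _ _)
  have hcb : c ≤ c₂ := by rw [hc]; exact (min_le_left _ _).trans (min_le_right _ _)
  have hcc : c ≤ 1 / 5 := by rw [hc]; exact min_le_right _ _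
  refine ⟨ε, c, hε0, by linarith, hc0, ?_⟩
  intro V _ _ G _ hFG hfree
  have hfree' : G.CliqueFree (k + 1) := hfree.mono (Nat.le_succ k)
  have hemp : IsEmpty (T ↪g G) := ⟨fun e => hFG ⟨ι0.trans e⟩⟩
  have hnb : ∀ v, ((nb G v).card : ℝ) = (G.degree v : ℝ) := by
    intro v
    have : (nb G v).card = G.degree v := by
      rw [← SimpleGraph.card_neighborFinset_eq_degree]
      congr 1
      ext w
      rw [mem_nb, SimpleGraph.mem_neighborFinset]
    rw [this]
  have hpow : ∀ (v : V) (ε' : ℝ), ε ≤ ε' →
      (1 + (G.degree v : ℝ)) ^ (1 - ε') ≤ (1 + (G.degree v : ℝ)) ^ (1 - ε) := by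
    intro v ε' h
    apply Real.rpow_le_rpow_of_exponent_le
    · have : (0 : ℝ) ≤ (G.degree v : ℝ) := Nat.cast_nonneg _
      linarith
    · linarith
  refine ⟨?_, ?_, ?_⟩
  · obtain ⟨p, hp1, hp2, hp3, hp4⟩ := h₁ V G hfree' hemp
    refine ⟨p, hp1, hp2, hp3, fun v => le_trans ?_ (hp4 v)⟩
    rw [hnb v]
    have h5 : 0 < (1 + (G.degree v : ℝ)) ^ (1 - ε₁) := by positivity
    exact div_le_div₀ hc₁.le hca h5 (hpow v ε₁ hεa)
  · intro w hw
    obtain ⟨I, hI, hIw⟩ := h₂ V G hfree' hemp w hw
    refine ⟨I, hI, le_trans ?_ hIw⟩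
    have h6 : ∑ v, w v / (1 + (G.degree v : ℝ)) ^ (1 - ε) ≤
        ∑ v, w v / (1 + ((nb G v).card : ℝ)) ^ (1 - ε₂) := by
      apply Finset.sum_le_sum
      intro v _
      rw [hnb v]
      exact div_le_div_of_nonneg_left (hw v) (by positivity) (hpow v ε₂ hεb)
    have h7 : 0 ≤ ∑ v, w v / (1 + (G.degree v : ℝ)) ^ (1 - ε) :=
      Finset.sum_nonneg fun v _ => div_nonneg (hw v) (by positivity)
    exact mul_le_mul hcb h6 h7 hc₂.le
  · intro δ hδ hδ1
    rcases isEmpty_or_nonempty V with hV | hV
    · refine ⟨∅, ?_, ?_⟩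
      · rw [Fintype.card_eq_zero]
        simp
      · rw [Finset.univ_eq_empty]
        simp
    have hn : 0 < (Fintype.card V : ℝ) := by exact_mod_cast Fintype.card_pos
    obtain ⟨σ, hσ⟩ : ∃ σ : ℝ, σ = 1 / 5 * δ ^ (1 / τ) := ⟨_, rfl⟩
    have hδp : 0 < δ ^ (1 / τ) := by positivity
    have hδp1 : δ ^ (1 / τ) ≤ 1 := Real.rpow_le_one hδ.le hδ1 (by positivity)
    have hσ0 : 0 < σ := by rw [hσ]; positivity
    have hσ1 : σ ≤ 1 := by rw [hσ]; linarith
    obtain ⟨U, -, hUne, hU1, hU2⟩ := h₃ V G univ hfree' hemp Finset.univ_nonempty σ hσ0 hσ1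
    rw [Finset.card_univ] at hU1 hU2
    refine ⟨U, ?_, ?_⟩
    · refine le_trans ?_ hU1
      apply mul_le_mul_of_nonneg_right _ hn.le
      rw [hσ]
      apply mul_le_mul hcc _ (by positivity) (by norm_num)
      apply Real.rpow_le_rpow_of_exponent_ge hδ hδ1
      exact one_div_le_one_div_of_le hε0 hεc
    · rw [interedges_card, interedges_card]
      rcases hU2 with h | ⟨h8, h9⟩
      · rw [h]
        have := ee_nonneg (G := G) univ
        positivity
      · refine h9.trans ?_
        apply mul_le_mul_of_nonneg_right _ (ee_nonneg _)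
        have hUc : 0 < (U.card : ℝ) := by exact_mod_cast hUne.card_pos
        have hρ : 0 < (U.card : ℝ) / Fintype.card V := by positivity
        rw [Real.rpow_add hρ, mul_comm δ]
        have h10 : ((U.card : ℝ) / Fintype.card V) ^ (2 : ℝ) =
            ((U.card : ℝ) / Fintype.card V) ^ 2 := Real.rpow_natCast _ 2
        rw [h10]
        apply mul_le_mul_of_nonneg_left _ (by positivity)
        have h11 : (U.card : ℝ) / Fintype.card V ≤ δ ^ (1 / τ) := by
          rw [div_le_iff₀ hn]
          have : 5 * σ = δ ^ (1 / τ) := by rw [hσ]; ring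
          rw [← this]
          exact h8
        calc ((U.card : ℝ) / Fintype.card V) ^ τ ≤ (δ ^ (1 / τ)) ^ τ :=
              Real.rpow_le_rpow hρ.le h11 hτ.le
          _ = δ := by
              rw [← Real.rpow_mul hδ.le, one_div, inv_mul_cancel₀ hτ.ne', Real.rpow_one]

end Pool.Agent.Results.MP_763321_co.FractionalColouring
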