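import Pool.Agent.R50.LO.Inst

set_option autoImplicit false

/-!
# The Gyárfás–Sumner conjecture for edge-transitive graphs and for graphs with large arc orbits

For every forest `F` and every `c > 0` there is a function `f` such that `χ(G) ≤ f(ω(G))` for every
finite graph `G` without induced `F` which

* is edge-transitive (it need not be arc-transitive), or
* is vertex-transitive and such that the orbits of the stabiliser of a vertex `v` on the neighbours of
  `v` all have at least `c * deg v` members, or
* is a union of relations of an association scheme (homogeneous coherent configuration, not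
  necessarily commutative) of valency at least `c * deg G` each.

The starting result `ArcTransitive` treats the case of one orbit of arcs.

Proof.  Let `d` be the degree.  The arcs are divided into at most `1/c` homogeneous classes, each with
at least `c d` members at each vertex.  Write `i → j` light if a positive proportion of the
continuations `x w` of class `j` of an arc `z x` of class `i` is light, i.e. `z` and `w` are not adjacent
and have few common neighbours.

1. If there is a cycle of light transitions of length one or two, `i → j → i`, then `F` is an induced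
   subgraph (the embedding theorem for light systems of the starting file).
2. Otherwise all transitions are heavy, for a smaller threshold: this follows from a triangle
   inequality for heavy walks, in the style of Ruzsa's triangle inequality: if `i → j*` and
   `j → k` are heavy (`j*` is the reversal of `j`), then `i → k` is heavy.
3. Then almost all continuations of every arc are heavy, and the colouring theorem of the starting
   file applies; adjacent vertices have far neighbourhoods since otherwise there is a large clique
   inside one class.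
-/

namespace Pool.Agent.Results.MP_763321_co.LargeArcOrbits

/-- Any edge can be mapped to any other edge by an automorphism. -/
def IsEdgeTransitive {V : Type} (G : SimpleGraph V) : Prop :=
  ∀ a b c d, G.Adj a b → G.Adj c d →
    ∃ φ : G ≃g G, (φ a = c ∧ φ b = d) ∨ (φ a = d ∧ φ b = c)

/-- `G` is vertex-transitive, and for every arc `v w` the orbit of `w` under the stabiliser of `v` in
the automorphism group has at least `c * deg v` members. -/
def HasLargeArcOrbits {V : Type} (G : SimpleGraph V) (c : ℝ) : Prop :=
  (∀ u v, ∃ φ : G ≃g G, φ u = v) ∧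
    ∀ v w, G.Adj v w →
      c * ({u | G.Adj v u}.ncard : ℝ) ≤ {u | ∃ φ : G ≃g G, φ v = v ∧ φ w = u}.ncard

/-- `R x y` is the class of the pair `(x, y)` in a homogeneous coherent configuration (association
scheme, not necessarily commutative): the diagonal is a class, the reversal of a class is a class and
for all classes `i`, `j` the number of `z` with `(x, z)` in `i` and `(z, y)` in `j` depends only on the
class of `(x, y)`. -/
structure IsAssociationScheme {V ι : Type} (R : V → V → ι) : Prop where
  diag : ∀ x y z, R x y = R z z ↔ x = y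
  inv : ∀ x y x' y', R x y = R x' y' → R y x = R y' x'
  num : ∀ i j x y x' y', R x y = R x' y' →
    {z | R x z = i ∧ R z y = j}.ncard = {z | R x' z = i ∧ R z y' = j}.ncard

/-- `G` is a union of relations of an association scheme each of which has valency at least `c`
times the valency of `G`. -/
def IsLargeSchemeUnion {V : Type} (G : SimpleGraph V) (c : ℝ) : Prop :=
  ∃ (ι : Type) (R : V → V → ι), IsAssociationScheme R ∧
    (∀ x y x' y', R x y = R x' y' → G.Adj x y → G.Adj x' y') ∧
    ∀ x y, G.Adj x y → c * ({z | G.Adj x z}.ncard : ℝ) ≤ {z | R x z = R x y}.ncard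

open Pool.Agent.R50.LO Pool.Agent.Y394.AT

theorem hom_mono {V ι : Type} [Fintype V] {G : SimpleGraph V} {c c' : ℝ} {D : ℕ}
    {cl : V → V → ι} (h : Hom G c D cl) (hc : c' ≤ c) : Hom G c' D cl where
  reg := h.reg
  thick := fun x y a b hxy hab =>
    (mul_le_mul_of_nonneg_right hc (Nat.cast_nonneg D)).trans (h.thick x y a b hxy hab)
  inv := h.inv
  cod := h.cod
  lig := h.lig
  all := h.all
  adjl := h.adjl

theorem hom_of_large {V : Type} [Fintype V] {G : SimpleGraph V} {c : ℝ}
    (h : HasLargeArcOrbits G c) : ∃ D : ℕ, Hom G c D (orb G) := by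
  classical
  obtain ⟨htr, hth⟩ := h
  have hnb : ∀ (φ : G ≃g G) (x : V), (nb G x).card = (nb G (φ x)).card := by
    intro φ x
    apply card_map φ
    intro w
    rw [mem_nb, mem_nb, φ.map_adj_iff]
  by_cases hV : Nonempty V
  swap
  · rw [not_nonempty_iff] at hV
    exact ⟨0, ⟨fun v => hV.elim v, fun v => hV.elim v, fun v => hV.elim v, fun v => hV.elim v,
      fun v => hV.elim v, fun v => hV.elim v, fun v => hV.elim v⟩⟩
  obtain ⟨v0⟩ := hV
  have hdeg : ∀ x, (nb G x).card = (nb G v0).card := by
    intro x
    obtain ⟨φ, rfl⟩ := htr v0 x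
    rw [← hnb]
  refine ⟨(nb G v0).card, hom_of_group G c (nb G v0).card ?_ (fun x _ a _ _ _ => htr a x) ?_⟩
  · intro v
    left
    rw [hdeg]
  · intro a b hab
    have h1 := hth a b hab
    have e1 : {z | G.Adj a z} = ((nb G a : Finset V) : Set V) := by
      ext z
      rw [Finset.mem_coe, mem_nb, Set.mem_ofPred_eq]
    have e2 : {u | ∃ φ : G ≃g G, φ a = a ∧ φ b = u} ⊆
        ((nc G (orb G) a (orb G a b) : Finset V) : Set V) := by
      rintro u ⟨φ, h2, h3⟩
      rw [Finset.mem_coe, mem_nc]
      constructor
      · rw [← h2, ← h3]
        exact φ.map_adj_iff.2 hab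
      · have h4 := orb_map G φ a b
        rw [h2, h3] at h4
        exact h4
    have e3 := Set.ncard_le_ncard e2 (Set.toFinite _)
    rw [Set.ncard_coe_finset] at e3
    rw [e1, Set.ncard_coe_finset, hdeg] at h1
    have e4 : (({u | ∃ φ : G ≃g G, φ a = a ∧ φ b = u}.ncard : ℕ) : ℝ) ≤
        ((nc G (orb G) a (orb G a b)).card : ℝ) := by exact_mod_cast e3
    exact h1.trans e4

theorem result (m : ℕ) (F : SimpleGraph (Fin m)) (hF : F.IsAcyclic) (c : ℝ) (hc : 0 < c) :
    ∃ f : ℕ → ℕ, ∀ (V : Type) [Finite V] (G : SimpleGraph V),
      (IsEdgeTransitive G ∨ HasLargeArcOrbits G c ∨ IsLargeSchemeUnion G c) →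
      ¬ F.IsIndContained G → G.chromaticNumber ≤ f G.cliqueNum := by
  classical
  obtain ⟨c', hc'⟩ : ∃ c' : ℝ, c' = min c (1 / 2) := ⟨_, rfl⟩
  have hc'0 : 0 < c' := by rw [hc']; exact lt_min hc (by norm_num)
  have hc'1 : c' ≤ 1 := by
    rw [hc']
    exact (min_le_right _ _).trans (by norm_num)
  choose! C hC using fun k => exists_color m F hF c' hc'0 hc'1 k
  refine ⟨fun k => max (C (max k 1)) 2, ?_⟩
  intro V _ G h hFG
  have : Fintype V := Fintype.ofFinite V
  have hcl : G.CliqueFree (max G.cliqueNum 1 + 1) := by
    intro s hs
    have h1 := hs.isClique.card_le_cliqueNum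
    rw [hs.card_eq] at h1
    have h2 := le_max_left G.cliqueNum 1
    omega
  have hcase : G.Colorable 2 ∨ ∃ (ι : Type) (D : ℕ) (cl : V → V → ι), Hom G c' D cl := by
    rcases h with h | h | ⟨ι, R, hR, hG, hth⟩
    · rcases edgeTr_cases G h with h1 | ⟨D, h1⟩
      · exact Or.inl h1
      · exact Or.inr ⟨_, D, _, hom_mono h1 (by rw [hc']; exact min_le_right _ _)⟩
    · obtain ⟨D, h1⟩ := hom_of_large h
      exact Or.inr ⟨_, D, _, hom_mono h1 (by rw [hc']; exact min_le_left _ _)⟩
    · obtain ⟨D, h1⟩ := hom_of_scheme G c (R := R) ⟨hR.diag, hR.inv, hR.num⟩ hG hth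
      exact Or.inr ⟨_, D, _, hom_mono h1 (by rw [hc']; exact min_le_left _ _)⟩
  rcases hcase with h1 | ⟨ι, D, cl, h1⟩
  · exact (h1.mono (le_max_right _ _)).chromaticNumber_le
  · exact ((hC (max G.cliqueNum 1) (le_max_right _ _) V ι G D cl h1 hcl
      ⟨fun e => hFG ⟨e⟩⟩).mono (le_max_left _ _)).chromaticNumber_le

end Pool.Agent.Results.MP_763321_co.LargeArcOrbits
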