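import Pool.Agent.R50.MC.Main
import Pool.Agent.H367R3.GSBasic

set_option autoImplicit false

/-!
# Large cuts in nearly regular graphs without an induced forest

For every forest `F`, every `k` and every `K` there is `c > 0` such that every finite graph `G`
without induced `F`, without a clique on `k` vertices and with maximum degree at most `K` times its
average degree has a cut with at least `(1/2 + c) |E(G)|` edges.

This is a consequence of the Gyárfás–Sumner conjecture: a graph with chromatic number at most `C` has a
cut with at least `(1/2 + 1/(2C)) |E(G)|` edges.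

Proof.  Let `d` be the maximum degree.

1. (Local theorem.)  If the adjacency form of a graph `H` without induced tree `T` and without
   `(k+1)`-clique, of maximum degree at most `d`, is at least `-ε d`, then its average degree is less
   than `c d`.  By induction on `k` the neighbourhood of each vertex `z` spans few edges, and then the
   inequality `|(A + e) 1_N|² ≤ (d + e) ⟨1_N, (A + e) 1_N⟩` for `N = N(z)` shows that almost all
   walks `z x w` end in a vertex with few common neighbours with `z`.  So there is a light system, and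
   `T` embeds by the embedding theorem of the starting file on arc-transitive graphs.
2. Applied to the induced subgraphs on large vertex sets `U`, the local theorem gives functions `f`
   supported in `U` with `q f ≤ -ε d |f|²`.  A greedy construction combines these to a positive
   semidefinite matrix with diagonal at most one, i.e. to a vector solution of the Goemans–Williamson
   relaxation.
3. Random signs, clipping (fourth moments) and rounding of a multi-affine form give the cut.
-/

namespace Pool.Agent.Results.MP_763321_co.LargeCuts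

open Pool.Agent.R50.MC Pool.Agent.Y394.AT

/-- `G.interedges S Sᶜ` is the set of ordered pairs `(u, v)` with `u ∈ S`, `v ∉ S` and `u`, `v`
adjacent; so its number of elements is the number of edges of the cut given by `S`. -/
theorem result (m : ℕ) (F : SimpleGraph (Fin m)) (hF : F.IsAcyclic) (k : ℕ) (K : ℝ) :
    ∃ c : ℝ, 0 < c ∧ ∀ (V : Type) [Fintype V] [DecidableEq V] (G : SimpleGraph V)
      [DecidableRel G.Adj], ¬ F.IsIndContained G → G.CliqueFree k →
      (∀ v, (G.degree v : ℝ) ≤ K * (2 * G.edgeFinset.card / Fintype.card V)) →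
      ∃ S : Finset V, (1 / 2 + c) * G.edgeFinset.card ≤ (G.interedges S Sᶜ).card := by
  classical
  obtain ⟨T, hT, ⟨ι0⟩⟩ := Pool.Agent.H367R3.forest_in_tree F hF
  obtain ⟨K', hK'⟩ : ∃ K' : ℝ, K' = max K 1 := ⟨_, rfl⟩
  have hK1 : 1 ≤ K' := by rw [hK']; exact le_max_right _ _
  have hKK : K ≤ K' := by rw [hK']; exact le_max_left _ _
  obtain ⟨c, hc, hmain⟩ := main_form m k T hT K' hK1
  refine ⟨c / 2, by positivity, ?_⟩
  intro V _ _ G _ hFG hfree hdeg
  by_cases hE : G.edgeFinset.card = 0
  · refine ⟨∅, ?_⟩
    rw [hE]
    simp
  have hE0 : 0 < (G.edgeFinset.card : ℝ) := by exact_mod_cast Nat.pos_of_ne_zero hE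
  have hV : Nonempty V := by
    obtain ⟨e, _⟩ := Finset.card_pos.1 (Nat.pos_of_ne_zero hE)
    obtain ⟨x, _⟩ := e.exists_rep
    exact ⟨x.1⟩
  have hn : 0 < (Fintype.card V : ℝ) := by exact_mod_cast Fintype.card_pos
  have hnb : ∀ v, (nb G v).card = G.degree v := by
    intro v
    rw [← SimpleGraph.card_neighborFinset_eq_degree]
    congr 1
    ext w
    rw [mem_nb, SimpleGraph.mem_neighborFinset]
  have hsum : ∑ v, ((nb G v).card : ℝ) = 2 * G.edgeFinset.card := by
    have h1 := G.sum_degrees_eq_twice_card_edges
    rw [Finset.sum_congr rfl (fun v _ => by rw [hnb v])]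
    exact_mod_cast h1
  obtain ⟨d, hd⟩ : ∃ d : ℝ, d = K' * (2 * G.edgeFinset.card / Fintype.card V) := ⟨_, rfl⟩
  have hd0 : 0 < d := by rw [hd]; positivity
  have hdeg' : ∀ v, ((nb G v).card : ℝ) ≤ d := by
    intro v
    rw [hnb, hd]
    refine (hdeg v).trans (mul_le_mul_of_nonneg_right hKK (by positivity))
  have hdn : d * Fintype.card V = K' * (2 * G.edgeFinset.card) := by
    rw [hd]
    field_simp
  obtain ⟨s, hs1, hs2⟩ := hmain V G d hV hd0 hdeg' (by rw [hsum, hdn])
    (hfree.mono (Nat.le_succ k)) ⟨fun e => hFG ⟨ι0.trans e⟩⟩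
  refine ⟨Finset.univ.filter (fun v => s v = 1), ?_⟩
  have hcut : q G s = 2 * G.edgeFinset.card -
      4 * ((G.interedges (Finset.univ.filter (fun v => s v = 1))
        (Finset.univ.filter (fun v => s v = 1))ᶜ).card : ℝ) := by
    rw [cut_of_signs s hs1, hsum]
    congr 3
    apply congrArg
    ext ⟨a, b⟩
    rw [SimpleGraph.mem_interedges_iff]
    simp only [Finset.mem_filter, Finset.mem_product, Finset.mem_univ, true_and,
      Finset.mem_compl]
    constructor
    · rintro ⟨h1, h2, h3⟩
      refine ⟨h1, ?_, h3⟩
      rw [h2]
      norm_num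
    · rintro ⟨h1, h2, h3⟩
      exact ⟨h1, (hs1 b).resolve_left h2, h3⟩
  rw [hcut, mul_assoc, hdn] at hs2
  have h5 : c * (2 * G.edgeFinset.card) ≤ c * (K' * (2 * G.edgeFinset.card)) := by
    apply mul_le_mul_of_nonneg_left _ hc.le
    nlinarith
  have h6 : (1 / 2 + c / 2) * (G.edgeFinset.card : ℝ) =
      G.edgeFinset.card / 2 + c * (2 * G.edgeFinset.card) / 4 := by ring
  rw [h6]
  linarith

end Pool.Agent.Results.MP_763321_co.LargeCuts
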