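import Pool.Agent.R50.EV.Main
import Pool.Agent.H367R3.GSBasic

set_option autoImplicit false

/-!
# Eigenvalues of nearly regular graphs without an induced forest

Let `F` be a forest and let `G` range over the finite graphs without induced `F` whose maximum degree
is at most `K` times the average degree `d`.

1. `G` has at least `n d³ / (2¹⁸ (m + 1)⁴ K³)` closed walks of length four (`m = |F|`).
2. At least `c n / d` eigenvalues of the adjacency matrix of `G` are at least `c d`.
3. If moreover `G` has no clique on `k` vertices, then at least `c n / d` eigenvalues of the adjacency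
   matrix of `G` are at most `- c d`.

There is no assumption on cliques or bicliques in 1 and 2.  The sum of the squares of the eigenvalues
is `n d`, so the numbers of eigenvalues in 2 and 3 are of the largest possible order.

Proof.

1. Choose a random set `R` of vertices, each with probability `p = L / D`, `D` the maximum degree.  If
   there are few closed walks of length four then there are few four-cycles and (Cauchy–Schwarz) few
   triangles, and so few edges of `G[R]` meet a triangle or a four-cycle of `G[R]`.  Deleting the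
   vertices of these triangles and four-cycles leaves an induced subgraph of girth at least five and
   large average degree, which contains every tree on `m + 1` vertices as an induced subgraph.
2. For a positive fraction of the vertices `z` there are many closed four-walks through `z`, and then
   the spot `S(z)`, which is the set of neighbours of `z` together with the set of vertices that have at
   least `ε d` common neighbours with `z`, has at most `C d` vertices and induces at least `c d²` edges.
   Each vertex is in at most `C d` spots.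
3. A family of functions `f_z` supported on the spots, bounded by one, with `⟨f_z, A f_z⟩ ≤ - c d²` for a
   positive fraction of the vertices `z`, forces at least `c' n / d` eigenvalues below `- c' d`, by
   expanding the sum of these forms in the eigenbasis.  Likewise for the other sign.
4. For positive eigenvalues take the indicator functions of the spots, for negative eigenvalues the
   sign functions given by the theorem on large cuts (`LargeCuts` in this folder) in the spots.
-/

namespace Pool.Agent.Results.MP_763321_co.ManyEigenvalues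

open Pool.Agent.R50.MC Pool.Agent.R50.EV Pool.Agent.Y394.AT

/-- The average degree. -/
noncomputable def avgDeg {V : Type} [Fintype V] [DecidableEq V] (G : SimpleGraph V)
    [DecidableRel G.Adj] : ℝ :=
  2 * G.edgeFinset.card / Fintype.card V

theorem result (m : ℕ) (F : SimpleGraph (Fin m)) (hF : F.IsAcyclic) (K : ℝ) (hK : 1 ≤ K) :
    (∀ (V : Type) [Fintype V] [DecidableEq V] (G : SimpleGraph V) [DecidableRel G.Adj],
      ¬ F.IsIndContained G → (∀ v, (G.degree v : ℝ) ≤ K * avgDeg G) →
      Fintype.card V * avgDeg G ^ 3 ≤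
        2 ^ 18 * ((m : ℝ) + 1) ^ 4 * K ^ 3 * ((G.adjMatrix ℝ) ^ 4).trace) ∧
    (∃ c : ℝ, 0 < c ∧ ∀ (V : Type) [Fintype V] [DecidableEq V] (G : SimpleGraph V)
      [DecidableRel G.Adj], ¬ F.IsIndContained G → (∀ v, (G.degree v : ℝ) ≤ K * avgDeg G) →
      ∀ hA : (G.adjMatrix ℝ).IsHermitian,
        c * (Fintype.card V / avgDeg G) ≤
          ((Finset.univ.filter (fun i => c * avgDeg G ≤ hA.eigenvalues i)).card : ℝ)) ∧
    (∀ k : ℕ, ∃ c : ℝ, 0 < c ∧ ∀ (V : Type) [Fintype V] [DecidableEq V] (G : SimpleGraph V)
      [DecidableRel G.Adj], ¬ F.IsIndContained G → G.CliqueFree k →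
      (∀ v, (G.degree v : ℝ) ≤ K * avgDeg G) →
      ∀ hA : (G.adjMatrix ℝ).IsHermitian,
        c * (Fintype.card V / avgDeg G) ≤
          ((Finset.univ.filter (fun i => hA.eigenvalues i ≤ -(c * avgDeg G))).card : ℝ)) := by
  classical
  obtain ⟨T, hT, ⟨ι0⟩⟩ := Pool.Agent.H367R3.forest_in_tree F hF
  have hK0 : 0 < K := by linarith
  -- facts for one graph
  have facts : ∀ (V : Type) [Fintype V] [DecidableEq V] (G : SimpleGraph V) [DecidableRel G.Adj],
      ¬ F.IsIndContained G → (∀ v, (G.degree v : ℝ) ≤ K * avgDeg G) → 0 < avgDeg G →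
      IsEmpty (T ↪g G) ∧ (∀ v, ((nb G v).card : ℝ) ≤ K * avgDeg G) ∧
      (Fintype.card V : ℝ) * (K * avgDeg G) ^ 3 ≤ 2 ^ 18 * ((m : ℝ) + 1) ^ 4 * K ^ 6 * H4 G := by
    intro V _ _ G _ hFG hdeg hpos
    have hemp : IsEmpty (T ↪g G) := ⟨fun e => hFG ⟨ι0.trans e⟩⟩
    have hnb : ∀ v, (nb G v).card = G.degree v := by
      intro v
      rw [← SimpleGraph.card_neighborFinset_eq_degree]
      congr 1
      ext w
      rw [mem_nb, SimpleGraph.mem_neighborFinset]
    have hsum : ∑ v, ((nb G v).card : ℝ) = 2 * G.edgeFinset.card := by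
      have h1 := G.sum_degrees_eq_twice_card_edges
      rw [Finset.sum_congr rfl (fun v _ => by rw [hnb v])]
      exact_mod_cast h1
    have hd : ∀ v, ((nb G v).card : ℝ) ≤ K * avgDeg G := by
      intro v
      rw [hnb]
      exact hdeg v
    have hn : (Fintype.card V : ℝ) ≠ 0 := by
      intro h0
      unfold avgDeg at hpos
      rw [h0, div_zero] at hpos
      exact lt_irrefl _ hpos
    refine ⟨hemp, hd, ?_⟩
    apply density T hT hemp hK (by positivity) hd
    rw [hsum]
    apply le_of_eq
    unfold avgDeg
    field_simp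
  -- nonnegativity of the average degree
  have hnn : ∀ (V : Type) [Fintype V] [DecidableEq V] (G : SimpleGraph V) [DecidableRel G.Adj],
      0 ≤ avgDeg G := by
    intro V _ _ G _
    unfold avgDeg
    positivity
  obtain ⟨ε, hεd⟩ : ∃ ε : ℝ, ε = 1 / (2 ^ 18 * ((m : ℝ) + 1) ^ 4 * K ^ 6) := ⟨_, rfl⟩
  have hε : 0 < ε := by rw [hεd]; positivity
  have hH : ∀ (V : Type) [Fintype V] (G : SimpleGraph V) (D : ℝ),
      (Fintype.card V : ℝ) * D ^ 3 ≤ 2 ^ 18 * ((m : ℝ) + 1) ^ 4 * K ^ 6 * H4 G →
      ε * (Fintype.card V * D ^ 3) ≤ H4 G := by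
    intro V _ G D h
    rw [hεd, one_div, inv_mul_le_iff₀ (by positivity)]
    exact h
  refine ⟨?_, ?_, ?_⟩
  · intro V _ _ G _ hFG hdeg
    rw [trace_eq]
    have hH0 := H4_nonneg (G := G)
    rcases (hnn V G).eq_or_lt with h0 | hpos
    · rw [← h0]
      simp only [ne_eq, OfNat.ofNat_ne_zero, not_false_eq_true, zero_pow, mul_zero]
      positivity
    · obtain ⟨_, _, h3⟩ := facts V G hFG hdeg hpos
      have h4 : K ^ 3 * (Fintype.card V * avgDeg G ^ 3) ≤
          K ^ 3 * (2 ^ 18 * ((m : ℝ) + 1) ^ 4 * K ^ 3 * H4 G) := by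
        calc K ^ 3 * (Fintype.card V * avgDeg G ^ 3) =
            Fintype.card V * (K * avgDeg G) ^ 3 := by ring
          _ ≤ 2 ^ 18 * ((m : ℝ) + 1) ^ 4 * K ^ 6 * H4 G := h3
          _ = _ := by ring
      exact le_of_mul_le_mul_left h4 (by positivity)
  · obtain ⟨c, hc⟩ : ∃ c : ℝ, c = ε / 4 * ε / (4 * (1 + 4 / ε) ^ 2) := ⟨_, rfl⟩
    have hc0 : 0 < c := by rw [hc]; positivity
    refine ⟨c / K, by positivity, ?_⟩
    intro V _ _ G _ hFG hdeg hA
    rcases (hnn V G).eq_or_lt with h0 | hpos
    · rw [← h0, div_zero, mul_zero]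
      exact Nat.cast_nonneg _
    · obtain ⟨_, h2, h3⟩ := facts V G hFG hdeg hpos
      have h4 := many_eig hA (d := avgDeg G) (K := K) (ε := ε) (κ := ε / 4) (s := -1) (c := c)
        hpos hK hε (by positivity) (Or.inr rfl) hc h2 (hH V G _ h3)
        (fun z => pos_test' (by positivity) hε h2 z)
      refine h4.trans ?_
      have h5 : (Finset.univ.filter (fun i => (-1 : ℝ) * hA.eigenvalues i ≤
          -(c / K * avgDeg G))).card ≤
          (Finset.univ.filter (fun i => c / K * avgDeg G ≤ hA.eigenvalues i)).card := by
        apply Finset.card_le_card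
        intro i hi
        have h6 := (Finset.mem_filter.1 hi).2
        exact Finset.mem_filter.2 ⟨Finset.mem_univ _, by linarith⟩
      exact_mod_cast h5
  · intro k
    obtain ⟨c1, hc1, htest⟩ := neg_test' (m := m) (k := k) T hT hε
    obtain ⟨c, hc⟩ : ∃ c : ℝ, c = c1 * ε / (4 * (1 + 4 / ε) ^ 2) := ⟨_, rfl⟩
    have hc0 : 0 < c := by rw [hc]; positivity
    refine ⟨c / K, by positivity, ?_⟩
    intro V _ _ G _ hFG hfree hdeg hA
    rcases (hnn V G).eq_or_lt with h0 | hpos
    · rw [← h0, div_zero, mul_zero]
      exact Nat.cast_nonneg _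
    · obtain ⟨h1, h2, h3⟩ := facts V G hFG hdeg hpos
      have h4 := many_eig hA (d := avgDeg G) (K := K) (ε := ε) (κ := c1) (s := 1) (c := c)
        hpos hK hε hc1 (Or.inl rfl) hc h2 (hH V G _ h3)
        (htest V G (K * avgDeg G) (by positivity) h2 (hfree.mono (Nat.le_succ k)) h1)
      refine h4.trans ?_
      have h5 : (Finset.univ.filter (fun i => (1 : ℝ) * hA.eigenvalues i ≤
          -(c / K * avgDeg G))).card ≤
          (Finset.univ.filter (fun i => hA.eigenvalues i ≤ -(c / K * avgDeg G))).card := by
        apply Finset.card_le_card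
        intro i hi
        have h6 := (Finset.mem_filter.1 hi).2
        exact Finset.mem_filter.2 ⟨Finset.mem_univ _, by linarith⟩
      exact_mod_cast h5

end Pool.Agent.Results.MP_763321_co.ManyEigenvalues
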